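import Mathlib
import Pool.Agent.Q106.TreeLemmas

/-!
# The upper bound for the distance packing domination number of trees fails for `p ≥ 3`

For all `3 ≤ p ≤ d` there is a tree `T` of order `n = 4 d² + 4 d` with
`γ_d^p(T) = 4 d + 1 > (n - 2 √n + d + 1) / d`.

The tree: a center is joined to the middle vertices of `2 d + 1` paths; one of these paths has
`2 d - 1` vertices, the other ones have `2 d + 1` vertices.
-/

set_option autoImplicit false

namespace Pool.Agent.Results.MP_bde484_co.BoundFails

open SimpleGraph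

section general
variable {V : Type}

theorem walk_bound (G : SimpleGraph V) (δ : V → V → ℕ) (h0 : ∀ u, δ u u = 0)
    (htri : ∀ u v w, G.Adj v w → δ v u ≤ δ w u + 1) {u v : V} (w : G.Walk u v) :
    δ u v ≤ w.length := by
  induction w with
  | nil => simp [h0]
  | cons h q ih =>
    rename_i a b c
    have := htri c a b h
    simp only [Walk.length_cons]
    omega

theorem exists_walk (G : SimpleGraph V) (δ : V → V → ℕ) 
    (hz : ∀ u v, δ u v = 0 → u = v)
    (hstep : ∀ u v k, δ u v = k + 1 → ∃ w, G.Adj u w ∧ δ w v = k) (u v : V) :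
    ∃ w : G.Walk u v, w.length = δ u v := by
  induction hk : δ u v generalizing u with
  | zero =>
    obtain rfl := hz u v hk
    exact ⟨Walk.nil, rfl⟩
  | succ k ih =>
    obtain ⟨w, hw, hw'⟩ := hstep u v k hk
    obtain ⟨q, hq⟩ := ih w hw'
    exact ⟨Walk.cons hw q, by simp [hq]⟩

theorem edist_eq (G : SimpleGraph V) (δ : V → V → ℕ) (h0 : ∀ u, δ u u = 0)
    (hz : ∀ u v, δ u v = 0 → u = v)
    (htri : ∀ u v w, G.Adj v w → δ v u ≤ δ w u + 1)
    (hstep : ∀ u v k, δ u v = k + 1 → ∃ w, G.Adj u w ∧ δ w v = k) (u v : V) :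
    G.edist u v = (δ u v : ℕ∞) := by
  apply le_antisymm
  · obtain ⟨w, hw⟩ := exists_walk G δ hz hstep u v
    rw [← hw]
    exact edist_le w
  · obtain ⟨w, hw⟩ := exists_walk G δ hz hstep u v
    obtain ⟨q, hq⟩ := Reachable.exists_walk_length_eq_edist (G := G) (u := u) (v := v) ⟨w⟩
    rw [← hq]
    exact_mod_cast walk_bound G δ h0 htri q

end general

/-- half length of branch `j` -/
def L (d : ℕ) (j : Fin (2 * d + 1)) : ℕ := if j = 0 then d - 1 else d

/-- vertices: a center, and branches which are paths with `2 L + 1` vertices -/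
abbrev Vt (d : ℕ) := Option (Σ j : Fin (2 * d + 1), Fin (2 * L d j + 1))

/-- the distance -/
def δ (d : ℕ) : Vt d → Vt d → ℕ
  | none, none => 0
  | none, some ⟨j, z⟩ => ((z : ℤ) - L d j).natAbs + 1
  | some ⟨j, z⟩, none => ((z : ℤ) - L d j).natAbs + 1
  | some ⟨j, z⟩, some ⟨i, y⟩ => if j = i then ((z : ℤ) - (y : ℕ)).natAbs else
      ((z : ℤ) - L d j).natAbs + ((y : ℤ) - L d i).natAbs + 2

theorem δ_self (d : ℕ) (u : Vt d) : δ d u u = 0 := by
  rcases u with _ | ⟨j, z⟩ <;> simp [δ]

theorem δ_comm (d : ℕ) (u v : Vt d) : δ d u v = δ d v u := by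
  rcases u with _ | ⟨j, z⟩ <;> rcases v with _ | ⟨i, y⟩ <;> simp only [δ]
  by_cases h : j = i
  · simp only [h, if_true]; omega
  · rw [if_neg h, if_neg (Ne.symm h)]; omega

theorem δ_zero (d : ℕ) (u v : Vt d) (h : δ d u v = 0) : u = v := by
  rcases u with _ | ⟨j, z⟩ <;> rcases v with _ | ⟨i, y⟩ <;> simp only [δ] at h
  · rfl
  · omega
  · omega
  · split_ifs at h with h1
    · subst h1
      have : z = y := by ext; omega
      rw [this]

theorem δ_tri (d : ℕ) (u v w : Vt d) (h : δ d v w = 1) : δ d v u ≤ δ d w u + 1 := by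
  rcases u with _ | ⟨j, z⟩ <;> rcases v with _ | ⟨i, y⟩ <;> rcases w with _ | ⟨k, x⟩ <;>
    simp only [δ] at h ⊢ <;> (try split_ifs at h ⊢) <;> subst_vars <;> (try omega)

theorem δ_step (d : ℕ) (u v : Vt d) (k : ℕ) (h : δ d u v = k + 1) :
    ∃ w, δ d u w = 1 ∧ δ d w v = k := by
  have key : ∀ (j : Fin (2 * d + 1)) (z : Fin (2 * L d j + 1)) (t : ℤ) (ht : 0 ≤ t)
      (ht2 : t ≤ 2 * L d j), ∃ y : Fin (2 * L d j + 1), (y : ℤ) = t := by
    intro j z t ht ht2
    exact ⟨⟨t.toNat, by omega⟩, by simp; omega⟩
  rcases u with _ | ⟨j, z⟩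
  · rcases v with _ | ⟨i, y⟩
    · simp [δ] at h
    · -- from the center to branch i
      refine ⟨some ⟨i, ⟨L d i, by omega⟩⟩, ?_, ?_⟩
      · simp [δ]
      · simp only [δ] at h ⊢
        simp only [if_true]
        omega
  · -- move along the branch
    have hz := z.2
    rcases v with _ | ⟨i, y⟩
    · simp only [δ] at h
      by_cases h1 : (z : ℤ) = L d j
      · refine ⟨none, ?_, ?_⟩
        · simp [δ, h1]
        · simp only [δ]; omega
      · obtain ⟨y, hy⟩ := key j z ((z : ℤ) + (if (z : ℤ) < L d j then 1 else -1))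
          (by split_ifs <;> omega) (by split_ifs <;> omega)
        refine ⟨some ⟨j, y⟩, ?_, ?_⟩
        · simp only [δ, if_true]; split_ifs at hy <;> omega
        · simp only [δ]; split_ifs at hy <;> omega
    · have hy0 := y.2
      simp only [δ] at h
      by_cases hji : j = i
      · subst hji
        simp only [if_true] at h
        obtain ⟨x, hx⟩ := key j z ((z : ℤ) + (if (z : ℤ) < y then 1 else -1))
          (by split_ifs <;> omega) (by split_ifs <;> omega)
        refine ⟨some ⟨j, x⟩, ?_, ?_⟩
        · simp only [δ, if_true]; split_ifs at hx <;> omega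
        · simp only [δ, if_true]; split_ifs at hx <;> omega
      · rw [if_neg hji] at h
        by_cases h1 : (z : ℤ) = L d j
        · refine ⟨none, ?_, ?_⟩
          · simp [δ, h1]
          · simp only [δ]; omega
        · obtain ⟨x, hx⟩ := key j z ((z : ℤ) + (if (z : ℤ) < L d j then 1 else -1))
            (by split_ifs <;> omega) (by split_ifs <;> omega)
          refine ⟨some ⟨j, x⟩, ?_, ?_⟩
          · simp only [δ, if_true]; split_ifs at hx <;> omega
          · simp only [δ, if_neg hji]; split_ifs at hx <;> omega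

/-- the tree -/
def Tr (d : ℕ) : SimpleGraph (Vt d) where
  Adj u v := δ d u v = 1
  symm := ⟨fun u v h => by rw [δ_comm]; exact h⟩
  loopless := ⟨fun u h => by rw [δ_self] at h; omega⟩

theorem edist_Tr (d : ℕ) (u v : Vt d) : (Tr d).edist u v = (δ d u v : ℕ∞) :=
  edist_eq (Tr d) (δ d) (δ_self d) (δ_zero d) (fun u v w h => δ_tri d u v w h)
    (fun u v k h => δ_step d u v k h) u v


theorem Tr_adj (d : ℕ) (u v : Vt d) : (Tr d).Adj u v ↔ δ d u v = 1 := Iff.rfl

/-- parent -/
def par (d : ℕ) : Vt d → Vt d
  | none => none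
  | some ⟨j, z⟩ => if (z : ℕ) = L d j then none else
      if h : (z : ℕ) < L d j then some ⟨j, ⟨z + 1, by omega⟩⟩ else
        some ⟨j, ⟨z - 1, by have := z.2; omega⟩⟩

theorem isTree_Tr (d : ℕ) : (Tr d).IsTree := by
  refine ⟨?_, ?_⟩
  · have : Nonempty (Vt d) := ⟨none⟩
    refine SimpleGraph.Connected.mk fun u v => ?_
    obtain ⟨w, -⟩ := exists_walk (Tr d) (δ d) (δ_zero d) (fun u v k h => δ_step d u v k h) u v
    exact ⟨w⟩
  · refine Q106.TreeLemmas.isAcyclic_of_parent (Tr d) (fun u => δ d none u) (par d) ?_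
    intro u v h
    rw [Tr_adj] at h
    rcases u with _ | ⟨j, z⟩ <;> rcases v with _ | ⟨i, y⟩
    · simp [δ] at h
    · right
      simp only [δ] at h
      have hy : (y : ℕ) = L d i := by omega
      constructor
      · simp only [par, if_pos hy]
      · simp only [δ]; omega
    · left
      simp only [δ] at h
      have hy : (z : ℕ) = L d j := by omega
      constructor
      · simp only [par, if_pos hy]
      · simp only [δ]; omega
    · simp only [δ] at h
      have hz := z.2
      have hy := y.2
      by_cases hji : j = i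
      · subst hji
        simp only [if_true] at h
        by_cases hc : ((z : ℤ) - L d j).natAbs < ((y : ℤ) - L d j).natAbs
        · right
          refine ⟨?_, ?_⟩
          · simp only [par]
            rw [if_neg (by omega)]
            split_ifs with h1
            · congr 2
              ext
              simp only
              omega
            · congr 2
              ext
              simp only
              omega
          · simp only [δ]; omega
        · left
          refine ⟨?_, ?_⟩
          · simp only [par]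
            rw [if_neg (by omega)]
            split_ifs with h1
            · congr 2
              ext
              simp only
              omega
            · congr 2
              ext
              simp only
              omega
          · simp only [δ]; omega
      · rw [if_neg hji] at h
        omega

theorem card_Vt (d : ℕ) (hd : 1 ≤ d) : Fintype.card (Vt d) = 4 * d ^ 2 + 4 * d := by
  rw [Fintype.card_option, Fintype.card_sigma]
  simp only [Fintype.card_fin]
  rw [Fin.sum_univ_succ]
  have h1 : ∀ i : Fin (2 * d), 2 * L d (Fin.succ i) + 1 = 2 * d + 1 := by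
    intro i
    simp [L, Fin.succ_ne_zero]
  rw [Finset.sum_congr rfl (fun i _ => h1 i)]
  simp only [L, if_true, Finset.sum_const, Finset.card_univ, Fintype.card_fin, smul_eq_mul]
  obtain ⟨e, rfl⟩ : ∃ e, d = e + 1 := ⟨d - 1, by omega⟩
  simp only [Nat.add_sub_cancel]
  ring

/-- the two ends of a branch -/
def E (d : ℕ) (e : Fin (2 * d + 1) × Bool) : Vt d :=
  some ⟨e.1, if e.2 then ⟨2 * L d e.1, by omega⟩ else ⟨0, by omega⟩⟩

/-- core of the tree -/
def core (d : ℕ) (x : Vt d) : Prop :=
  match x with
  | none => True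
  | some ⟨j, z⟩ => ((z : ℤ) - L d j).natAbs ≤ (if j = 0 then 1 else 0)

theorem core_close (d : ℕ) (x y : Vt d) (hx : core d x) (hy : core d y) : δ d x y ≤ 3 := by
  rcases x with _ | ⟨j, z⟩ <;> rcases y with _ | ⟨i, y⟩ <;> simp only [core, δ] at hx hy ⊢
  · omega
  · split_ifs at hy <;> omega
  · split_ifs at hx <;> omega
  · by_cases hji : j = i
    · subst hji
      simp only [if_true]
      split_ifs at hx hy <;> omega
    · rw [if_neg hji]
      split_ifs at hx hy with h1 h2 h2
      · exact absurd (h1.trans h2.symm) hji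
      · omega
      · omega
      · omega

theorem two_ends (d : ℕ) (hd : 1 ≤ d) (x : Vt d) (e e' : Fin (2 * d + 1) × Bool) (hne : e ≠ e')
    (h : δ d (E d e) x ≤ d) (h' : δ d (E d e') x ≤ d) : e.1 = e'.1 ∧ core d x := by
  obtain ⟨j, b⟩ := e
  obtain ⟨j', b'⟩ := e'
  have hL0 : L d 0 = d - 1 := by simp [L]
  have hL : ∀ j, j ≠ 0 → L d j = d := by intro j hj; simp [L, hj]
  rcases x with _ | ⟨i, y⟩
  · simp only [E, δ] at h h'
    have h1 : j = 0 := by
      by_contra hj
      have := hL j hj
      cases b <;> simp at h <;> omega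
    have h2 : j' = 0 := by
      by_contra hj
      have := hL j' hj
      cases b' <;> simp at h' <;> omega
    exact ⟨h1.trans h2.symm, trivial⟩
  · simp only [E, δ] at h h'
    have hge : ∀ j, d - 1 ≤ L d j := by
      intro j; unfold L; split_ifs <;> omega
    have h1 : j = i := by
      by_contra hj
      rw [if_neg hj] at h
      have := hge j
      cases b <;> simp at h <;> omega
    have h2 : j' = i := by
      by_contra hj
      rw [if_neg hj] at h'
      have := hge j'
      cases b' <;> simp at h' <;> omega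
    subst h1
    subst h2
    refine ⟨rfl, ?_⟩
    simp only [if_true] at h h'
    have hb : b ≠ b' := fun hh => hne (by rw [hh])
    simp only [core]
    by_cases hj : j' = 0
    · subst hj
      rw [if_pos rfl]
      cases b <;> cases b' <;> simp_all <;> omega
    · rw [if_neg hj]
      have := hL j' hj
      cases b <;> cases b' <;> simp_all <;> omega


/-- `X` is a `d`-distance dominating set of `G`: every vertex outside `X` is at distance at most
`d` from some vertex of `X`. -/
def DistDominating {V : Type} (G : SimpleGraph V) (d : ℕ) (X : Finset V) : Prop :=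
  ∀ u, u ∉ X → ∃ x ∈ X, G.edist u x ≤ (d : ℕ∞)

/-- `X` is a `p`-packing of `G`: distinct vertices of `X` are at distance at least `p + 1`. -/
def Packing {V : Type} (G : SimpleGraph V) (p : ℕ) (X : Finset V) : Prop :=
  ∀ u ∈ X, ∀ v ∈ X, u ≠ v → ((p + 1 : ℕ) : ℕ∞) ≤ G.edist u v

/-- the `d`-distance `p`-packing domination number (`⊤` if there is no such set) -/
noncomputable def gamma {V : Type} (G : SimpleGraph V) (d p : ℕ) : ℕ∞ :=
  ⨅ X : {X : Finset V // DistDominating G d X ∧ Packing G p X}, (X.1.card : ℕ∞)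

theorem E_inj (d : ℕ) (hd : 2 ≤ d) : Function.Injective (E d) := by
  rintro ⟨j, b⟩ ⟨j', b'⟩ h
  simp only [E, Option.some.injEq] at h
  have h1 : j = j' := congrArg Sigma.fst h
  subst h1
  have h2 := eq_of_heq (Sigma.mk.inj h).2
  have hL : 1 ≤ L d j := by unfold L; split_ifs <;> omega
  cases b <;> cases b' <;> simp at h2 ⊢ <;> omega

theorem lower (p d : ℕ) (hp : 3 ≤ p) (hd : 1 ≤ d) (X : Finset (Vt d))
    (h1 : DistDominating (Tr d) d X) (h2 : Packing (Tr d) p X) : 4 * d + 1 ≤ X.card := by
  classical
  have hφ : ∀ e : Fin (2 * d + 1) × Bool, ∃ x ∈ X, δ d (E d e) x ≤ d := by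
    intro e
    by_cases he : E d e ∈ X
    · exact ⟨_, he, by rw [δ_self]; omega⟩
    · obtain ⟨x, hx, hx'⟩ := h1 _ he
      rw [edist_Tr] at hx'
      exact ⟨x, hx, by exact_mod_cast hx'⟩
  choose φ hφX hφd using hφ
  have hcore : ∀ x ∈ X, ∀ y ∈ X, core d x → core d y → x = y := by
    intro x hx y hy hcx hcy
    by_contra hne
    have h3 := h2 x hx y hy hne
    rw [edist_Tr] at h3
    have h4 : p + 1 ≤ δ d x y := by exact_mod_cast h3
    have := core_close d x y hcx hcy
    omega
  by_cases hinj : Function.Injective φ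
  · have h3 := Finset.card_le_card_of_injOn (s := Finset.univ) (t := X) φ
      (fun e _ => hφX e) (fun a _ b _ h => hinj h)
    rw [Finset.card_univ, Fintype.card_prod, Fintype.card_fin, Fintype.card_bool] at h3
    omega
  · rw [Function.not_injective_iff] at hinj
    obtain ⟨e, e', hee, hne⟩ := hinj
    obtain ⟨hb, hc⟩ := two_ends d hd (φ e) e e' hne (hφd e) (by rw [hee]; exact hφd e')
    have hthree : ∀ c : Fin (2 * d + 1) × Bool, c ≠ e' → φ c = φ e → c = e := by
      intro c hc1 hc2
      by_contra hc3
      obtain ⟨hb', -⟩ := two_ends d hd (φ e) c e hc3 (by rw [← hc2]; exact hφd c) (hφd e)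
      obtain ⟨c1, c2⟩ := c
      obtain ⟨e1, e2⟩ := e
      obtain ⟨f1, f2⟩ := e'
      simp only at hb hb'
      subst hb
      subst hb'
      have a1 : c2 ≠ e2 := fun h => hc3 (by rw [h])
      have a2 : c2 ≠ f2 := fun h => hc1 (by rw [h])
      have a3 : e2 ≠ f2 := fun h => hne (by rw [h])
      cases c2 <;> cases e2 <;> cases f2 <;>
        first | exact a1 rfl | exact a2 rfl | exact a3 rfl
    have h3 := Finset.card_le_card_of_injOn (s := Finset.univ.erase e') (t := X) φ
      (fun e _ => hφX e) (by
        intro a ha b hb hab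
        simp only [Finset.coe_erase, Finset.coe_univ, Set.mem_sdiff, Set.mem_univ, true_and,
          Set.mem_singleton_iff] at ha hb
        by_contra hne2
        obtain ⟨-, hc2⟩ := two_ends d hd (φ a) a b hne2 (hφd a) (by rw [hab]; exact hφd b)
        have h5 : φ a = φ e := hcore _ (hφX a) _ (hφX e) hc2 hc
        exact hne2 ((hthree a ha h5).trans (hthree b hb (hab.symm.trans h5)).symm))
    rw [Finset.card_erase_of_mem (Finset.mem_univ _), Finset.card_univ, Fintype.card_prod,
      Fintype.card_fin, Fintype.card_bool] at h3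
    omega

theorem upper (p d : ℕ) (hpd : p ≤ d) (hd : 3 ≤ d) : ∃ X : Finset (Vt d),
    DistDominating (Tr d) d X ∧ Packing (Tr d) p X ∧ X.card = 4 * d + 1 := by
  classical
  have hlast : Fin.last (2 * d) ≠ 0 := by
    intro h
    have := congrArg Fin.val h
    simp at this
    omega
  have hLl : L d (Fin.last (2 * d)) = d := by simp [L, hlast]
  have hLle : ∀ j, L d j ≤ d := by intro j; unfold L; split_ifs <;> omega
  have hLge : ∀ j, d - 1 ≤ L d j := by intro j; unfold L; split_ifs <;> omega
  set x0 : Vt d := some ⟨Fin.last (2 * d), ⟨L d (Fin.last (2 * d)), by omega⟩⟩ with hx0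
  set S : Finset (Fin (2 * d + 1) × Bool) := (Finset.univ.erase (Fin.last (2 * d))) ×ˢ Finset.univ
    with hS
  have hSmem : ∀ j b, (j, b) ∈ S ↔ j ≠ Fin.last (2 * d) := by
    intro j b
    simp [hS]
  have hx0E : ∀ j b, j ≠ Fin.last (2 * d) → d + 1 ≤ δ d x0 (E d (j, b)) := by
    intro j b hj
    simp only [hx0, E, δ]
    rw [if_neg (Ne.symm hj)]
    have := hLge j
    cases b <;> simp <;> omega
  have hEE : ∀ j b j' b', (j, b) ≠ (j', b') → d + 1 ≤ δ d (E d (j, b)) (E d (j', b')) := by
    intro j b j' b' hne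
    simp only [E, δ]
    have h1 := hLge j
    have h2 := hLge j'
    by_cases hjj : j = j'
    · subst hjj
      rw [if_pos rfl]
      cases b <;> cases b' <;> simp at hne ⊢ <;> omega
    · rw [if_neg hjj]
      cases b <;> cases b' <;> simp <;> omega
  refine ⟨insert x0 (S.image (E d)), ?_, ?_, ?_⟩
  · intro u _
    rcases u with _ | ⟨j, z⟩
    · refine ⟨x0, Finset.mem_insert_self _ _, ?_⟩
      rw [edist_Tr]
      have : δ d none x0 ≤ d := by simp [hx0, δ]; omega
      exact_mod_cast this
    · by_cases hj : j = Fin.last (2 * d)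
      · refine ⟨x0, Finset.mem_insert_self _ _, ?_⟩
        rw [edist_Tr]
        have : δ d (some ⟨j, z⟩) x0 ≤ d := by
          subst hj
          simp only [hx0, δ, if_true]
          have := z.2
          omega
        exact_mod_cast this
      · have h1 := hLle j
        have hz := z.2
        by_cases hzL : (z : ℕ) ≤ L d j
        · refine ⟨E d (j, false), Finset.mem_insert_of_mem
            (Finset.mem_image_of_mem _ ((hSmem _ _).mpr hj)), ?_⟩
          rw [edist_Tr]
          have : δ d (some ⟨j, z⟩) (E d (j, false)) ≤ d := by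
            simp [E, δ]; omega
          exact_mod_cast this
        · refine ⟨E d (j, true), Finset.mem_insert_of_mem
            (Finset.mem_image_of_mem _ ((hSmem _ _).mpr hj)), ?_⟩
          rw [edist_Tr]
          have : δ d (some ⟨j, z⟩) (E d (j, true)) ≤ d := by
            simp [E, δ]; omega
          exact_mod_cast this
  · intro u hu v hv huv
    rw [edist_Tr]
    have : p + 1 ≤ δ d u v := by
      rw [Finset.mem_insert] at hu hv
      rcases hu with rfl | hu <;> rcases hv with rfl | hv
      · exact absurd rfl huv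
      · obtain ⟨⟨j, b⟩, hjb, rfl⟩ := Finset.mem_image.mp hv
        have := hx0E j b ((hSmem _ _).mp hjb)
        omega
      · obtain ⟨⟨j, b⟩, hjb, rfl⟩ := Finset.mem_image.mp hu
        have := hx0E j b ((hSmem _ _).mp hjb)
        rw [δ_comm]
        omega
      · obtain ⟨⟨j, b⟩, hjb, rfl⟩ := Finset.mem_image.mp hu
        obtain ⟨⟨j', b'⟩, hjb', rfl⟩ := Finset.mem_image.mp hv
        have := hEE j b j' b' (fun h => huv (by rw [h]))
        omega
    exact_mod_cast this
  · rw [Finset.card_insert_of_notMem, Finset.card_image_of_injective _ (E_inj d (by omega)), hS,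
      Finset.card_product, Finset.card_erase_of_mem (Finset.mem_univ _)]
    · simp
      omega
    · intro hmem
      obtain ⟨⟨j, b⟩, hjb, hh⟩ := Finset.mem_image.mp hmem
      have := hx0E j b ((hSmem _ _).mp hjb)
      rw [hh, δ_self] at this
      omega

theorem gamma_Tr (p d : ℕ) (hp : 3 ≤ p) (hpd : p ≤ d) :
    gamma (Tr d) d p = ((4 * d + 1 : ℕ) : ℕ∞) := by
  apply le_antisymm
  · obtain ⟨X, h1, h2, h3⟩ := upper p d hpd (by omega)
    rw [← h3]
    exact iInf_le (fun X : {X : Finset (Vt d) // DistDominating (Tr d) d X ∧ Packing (Tr d) p X} =>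
      (X.1.card : ℕ∞)) ⟨X, h1, h2⟩
  · refine le_iInf fun X => ?_
    exact_mod_cast lower p d hp (by omega) X.1 X.2.1 X.2.2

/-- For all `3 ≤ p ≤ d` there is a finite tree `T` whose `d`-distance `p`-packing domination number
is larger than `(n - 2 √n + d + 1) / d`, where `n` is the order of `T`. -/
theorem result (p d : ℕ) (hp : 3 ≤ p) (hpd : p ≤ d) :
    ∃ (V : Type) (_ : Fintype V) (T : SimpleGraph V) (g : ℕ), T.IsTree ∧ gamma T d p = (g : ℕ∞) ∧
      ((Fintype.card V : ℝ) - 2 * Real.sqrt (Fintype.card V) + d + 1) / d < g := by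
  refine ⟨Vt d, inferInstance, Tr d, 4 * d + 1, isTree_Tr d, gamma_Tr p d hp hpd, ?_⟩
  rw [card_Vt d (by omega)]
  have hd : (3 : ℝ) ≤ d := by exact_mod_cast hp.trans hpd
  rw [div_lt_iff₀ (by linarith)]
  push_cast
  have hs : (4 * (d : ℝ) + 1) / 2 < Real.sqrt (4 * (d : ℝ) ^ 2 + 4 * d) := by
    apply Real.lt_sqrt_of_sq_lt
    nlinarith
  nlinarith

end Pool.Agent.Results.MP_bde484_co.BoundFails
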